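import Mathlib

set_option autoImplicit false

/-!
The stable image of an endomorphism of a polynomial ring in `n ≥ 3` variables need not be a
retract.
-/

namespace Pool.Agent.Results.MP_0f9f23_al.NotRetract

open MvPolynomial

/-- The stable image `⋂_{k ≥ 1} φ^k(P)` of an endomorphism `φ` of the `K`-algebra `P`. -/
def stableImage {K P : Type*} [CommRing K] [CommRing P] [Algebra K P] (φ : P →ₐ[K] P) :
    Subalgebra K P :=
  ⨅ k : ℕ, (φ ^ (k + 1)).range

/-- The subalgebra `R` is a retract of `P`: there is an endomorphism `π` of `P` with image `R`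
and with `π(r) = r` for all `r ∈ R`. -/
def IsRetract {K P : Type*} [CommRing K] [CommRing P] [Algebra K P] (R : Subalgebra K P) : Prop :=
  ∃ π : P →ₐ[K] P, π.range = R ∧ ∀ r ∈ R, π r = r

section

variable (K : Type*) [Field K] (m : ℕ)

theorem one_ne_zero' : (1 : Fin (m + 3)) ≠ 0 := by
  intro h
  have := congrArg Fin.val h
  simp at this

theorem two_ne_zero' : (2 : Fin (m + 3)) ≠ 0 := by
  intro h
  have := congrArg Fin.val h
  simp only [Fin.coe_ofNat_eq_mod] at this
  rw [Nat.mod_eq_of_lt (by omega), Nat.mod_eq_of_lt (by omega)] at this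
  omega

theorem two_ne_one' : (2 : Fin (m + 3)) ≠ 1 := by
  intro h
  have := congrArg Fin.val h
  simp only [Fin.coe_ofNat_eq_mod] at this
  rw [Nat.mod_eq_of_lt (by omega), Nat.mod_eq_of_lt (by omega)] at this
  omega

/-- the function on the set of indices with the values `a, b, c, 0, 0, …` -/
def vals {A : Type*} [Zero A] (a b c : A) (i : Fin (m + 3)) : A :=
  if i = 0 then a else if i = 1 then b else if i = 2 then c else 0

theorem vals_zero {A : Type*} [Zero A] (a b c : A) : vals m a b c 0 = a := by
  rw [vals, if_pos rfl]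

theorem vals_one {A : Type*} [Zero A] (a b c : A) : vals m a b c 1 = b := by
  rw [vals, if_neg (one_ne_zero' m), if_pos rfl]

theorem vals_two {A : Type*} [Zero A] (a b c : A) : vals m a b c 2 = c := by
  rw [vals, if_neg (two_ne_zero' m), if_neg (two_ne_one' m), if_pos rfl]

theorem vals_other {A : Type*} [Zero A] (a b c : A) (i : Fin (m + 3)) (h0 : i ≠ 0) (h1 : i ≠ 1)
    (h2 : i ≠ 2) : vals m a b c i = 0 := by
  rw [vals, if_neg h0, if_neg h1, if_neg h2]

theorem map_vals {A B : Type*} [Zero A] [Zero B] (g : A → B) (hg : g 0 = 0) (a b c : A)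
    (i : Fin (m + 3)) : g (vals m a b c i) = vals m (g a) (g b) (g c) i := by
  unfold vals
  split_ifs <;> first | rfl | exact hg

/-- the endomorphism `x ↦ x`, `y ↦ y + x z`, `z ↦ z - 2 y z - x z ^ 2` (the other variables are
mapped to zero) -/
noncomputable def phi : MvPolynomial (Fin (m + 3)) K →ₐ[K] MvPolynomial (Fin (m + 3)) K :=
  aeval (vals m (X 0) (X 1 + X 0 * X 2) (X 2 - 2 * X 1 * X 2 - X 0 * X 2 ^ 2))

theorem phi_zero : phi K m (X 0) = X 0 := by
  rw [phi, aeval_X, vals_zero]

theorem phi_one : phi K m (X 1) = X 1 + X 0 * X 2 := by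
  rw [phi, aeval_X, vals_one]

theorem phi_two : phi K m (X 2) = X 2 - 2 * X 1 * X 2 - X 0 * X 2 ^ 2 := by
  rw [phi, aeval_X, vals_two]

theorem phi_other (i : Fin (m + 3)) (h0 : i ≠ 0) (h1 : i ≠ 1) (h2 : i ≠ 2) :
    phi K m (X i) = 0 := by
  rw [phi, aeval_X, vals_other m _ _ _ i h0 h1 h2]

theorem mem_stable_of_fixed (f : MvPolynomial (Fin (m + 3)) K) (hf : phi K m f = f) :
    f ∈ stableImage (phi K m) := by
  rw [stableImage, Algebra.mem_iInf]
  intro k
  refine ⟨f, ?_⟩
  change (phi K m ^ (k + 1)) f = f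
  induction k with
  | zero => rw [zero_add, pow_one, hf]
  | succ k ih => rw [pow_succ, AlgHom.mul_apply, hf, ih]

theorem phi_w : phi K m (X 1 ^ 2 + X 0 * X 2) = X 1 ^ 2 + X 0 * X 2 := by
  rw [map_add, map_mul, map_pow, phi_zero, phi_one, phi_two]
  ring

variable {K}

/-- the map to the univariate polynomials -/
noncomputable def iota (a b : K) : MvPolynomial (Fin (m + 3)) K →ₐ[K] Polynomial K :=
  aeval (vals m (Polynomial.C a) (Polynomial.C a * Polynomial.X)
    (Polynomial.C (b ^ 2 / a) - Polynomial.C a * Polynomial.X ^ 2))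

/-- the endomorphism of the univariate polynomials -/
noncomputable def sigma (a b : K) : Polynomial K →ₐ[K] Polynomial K :=
  Polynomial.aeval (Polynomial.X + (Polynomial.C (b ^ 2 / a) - Polynomial.C a * Polynomial.X ^ 2))

theorem iota_phi (a b : K) (ha : a ≠ 0) : (iota m a b).comp (phi K m) =
    (sigma a b).comp (iota m a b) := by
  have hab : (Polynomial.C a * Polynomial.C (b ^ 2 / a) : Polynomial K) =
      Polynomial.C (b ^ 2) := by
    rw [← Polynomial.C_mul]
    congr 1
    field_simp
  have hC : ∀ c : K, sigma a b (Polynomial.C c) = Polynomial.C c := fun c => by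
    rw [sigma, Polynomial.aeval_C]; rfl
  have hX : sigma a b Polynomial.X = Polynomial.X +
      (Polynomial.C (b ^ 2 / a) - Polynomial.C a * Polynomial.X ^ 2) := by
    rw [sigma, Polynomial.aeval_X]
  apply MvPolynomial.algHom_ext
  intro i
  rw [AlgHom.comp_apply, AlgHom.comp_apply]
  by_cases h0 : i = 0
  · subst h0
    rw [phi_zero, iota, aeval_X, vals_zero, hC]
  by_cases h1 : i = 1
  · subst h1
    rw [phi_one, map_add, map_mul, iota, aeval_X, aeval_X, aeval_X, vals_zero, vals_one, vals_two,
      map_mul, hC, hX]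
    ring
  by_cases h2 : i = 2
  · subst h2
    rw [phi_two, map_sub, map_sub, map_mul, map_mul, map_mul, map_pow, iota, aeval_X, aeval_X,
      aeval_X, vals_zero, vals_one, vals_two, map_sub, map_mul, map_pow, hC, hC, hX, map_ofNat]
    ring
  · rw [phi_other K m i h0 h1 h2, iota, aeval_X, vals_other m _ _ _ i h0 h1 h2, map_zero, map_zero]

theorem iota_phi_pow (a b : K) (ha : a ≠ 0) (k : ℕ) (f : MvPolynomial (Fin (m + 3)) K) :
    iota m a b ((phi K m ^ k) f) = (sigma a b ^ k) (iota m a b f) := by
  induction k with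
  | zero => rfl
  | succ k ih =>
    rw [pow_succ', AlgHom.mul_apply, pow_succ', AlgHom.mul_apply, ← ih]
    exact DFunLike.congr_fun (iota_phi m a b ha) _

theorem natDegree_sigma (a b : K) (ha : a ≠ 0) (k : ℕ) (p : Polynomial K) :
    ((sigma a b ^ k) p).natDegree = p.natDegree * 2 ^ k := by
  have hg : (Polynomial.X + (Polynomial.C (b ^ 2 / a) - Polynomial.C a * Polynomial.X ^ 2) :
      Polynomial K).natDegree = 2 := by
    compute_degree!
  induction k with
  | zero => simp
  | succ k ih =>
    rw [pow_succ', AlgHom.mul_apply, sigma, ← Polynomial.comp_eq_aeval, Polynomial.natDegree_comp,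
      hg]
    rw [sigma] at ih
    rw [ih, pow_succ]
    ring

theorem iota_stable (a b : K) (ha : a ≠ 0) (f : MvPolynomial (Fin (m + 3)) K)
    (hf : f ∈ stableImage (phi K m)) : (iota m a b f).natDegree = 0 := by
  rw [stableImage, Algebra.mem_iInf] at hf
  obtain ⟨g, hg⟩ := hf (iota m a b f).natDegree
  change (phi K m ^ ((iota m a b f).natDegree + 1)) g = f at hg
  have h1 := iota_phi_pow m a b ha ((iota m a b f).natDegree + 1) g
  rw [hg] at h1
  have h2 := congrArg Polynomial.natDegree h1
  rw [natDegree_sigma a b ha] at h2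
  by_contra h3
  have h4 : (iota m a b g).natDegree ≠ 0 := by
    intro h5
    rw [h5, zero_mul] at h2
    exact h3 h2
  have h5 : (iota m a b f).natDegree < 2 ^ ((iota m a b f).natDegree + 1) :=
    lt_trans (Nat.lt_succ_self _) Nat.lt_two_pow_self
  have h6 : 1 * 2 ^ ((iota m a b f).natDegree + 1) ≤
      (iota m a b g).natDegree * 2 ^ ((iota m a b f).natDegree + 1) :=
    Nat.mul_le_mul_right _ (Nat.one_le_iff_ne_zero.2 h4)
  omega

theorem eval_iota (a b c : K) (ha : a ≠ 0) (hc : c ^ 2 = b ^ 2)
    (f : MvPolynomial (Fin (m + 3)) K) :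
    (iota m a b f).eval (c / a) = eval (vals m a c 0) f := by
  have h : ((Polynomial.aeval (c / a) : Polynomial K →ₐ[K] K).comp (iota m a b)) =
      (aeval (vals m a c 0) : MvPolynomial (Fin (m + 3)) K →ₐ[K] K) := by
    apply MvPolynomial.algHom_ext
    intro i
    rw [AlgHom.comp_apply, iota, aeval_X, aeval_X, map_vals m _ (map_zero _)]
    congr 1
    · rw [Polynomial.aeval_C]; rfl
    · rw [map_mul, Polynomial.aeval_C, Polynomial.aeval_X]
      change a * (c / a) = c
      field_simp
    · rw [map_sub, map_mul, map_pow, Polynomial.aeval_C, Polynomial.aeval_C, Polynomial.aeval_X]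
      change b ^ 2 / a - a * (c / a) ^ 2 = 0
      rw [← hc]
      field_simp
      ring
  have h1 := DFunLike.congr_fun h f
  rw [AlgHom.comp_apply, aeval_eq_eval] at h1
  rw [← h1, Polynomial.coe_aeval_eq_eval]

theorem even_of_ne (a b : K) (ha : a ≠ 0) (f : MvPolynomial (Fin (m + 3)) K)
    (hf : f ∈ stableImage (phi K m)) :
    eval (vals m a b 0) f = eval (vals m a (-b) 0) f := by
  obtain ⟨c, hc⟩ := Polynomial.natDegree_eq_zero.1 (iota_stable m a b ha f hf)
  rw [← eval_iota m a b b ha rfl f, ← eval_iota m a b (-b) ha (by ring) f, ← hc]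
  rw [Polynomial.eval_C, Polynomial.eval_C]

theorem eval_univ (g : Fin (m + 3) → Polynomial K) (f : MvPolynomial (Fin (m + 3)) K) (c : K) :
    (aeval g f : Polynomial K).eval c = eval (fun i => (g i).eval c) f := by
  have h : ((Polynomial.aeval c : Polynomial K →ₐ[K] K).comp
      (aeval g : MvPolynomial (Fin (m + 3)) K →ₐ[K] Polynomial K)) =
      (aeval (fun i => (g i).eval c) : MvPolynomial (Fin (m + 3)) K →ₐ[K] K) := by
    apply MvPolynomial.algHom_ext
    intro i
    rw [AlgHom.comp_apply, aeval_X, aeval_X, Polynomial.coe_aeval_eq_eval]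
  have h1 := DFunLike.congr_fun h f
  rw [AlgHom.comp_apply, aeval_eq_eval] at h1
  rw [← h1, Polynomial.coe_aeval_eq_eval]

theorem even [Infinite K] (a b : K) (f : MvPolynomial (Fin (m + 3)) K)
    (hf : f ∈ stableImage (phi K m)) :
    eval (vals m a b 0) f = eval (vals m a (-b) 0) f := by
  let q : Polynomial K := aeval (vals m Polynomial.X (Polynomial.C b) 0) f -
    aeval (vals m Polynomial.X (Polynomial.C (-b)) 0) f
  have hq : ∀ c : K, q.eval c = eval (vals m c b 0) f - eval (vals m c (-b) 0) f := by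
    intro c
    have h1 : ∀ (d : K), (fun i => (vals m Polynomial.X (Polynomial.C d) 0 i).eval c) =
        vals m c d 0 := by
      intro d
      funext i
      rw [map_vals m (Polynomial.eval c) Polynomial.eval_zero, Polynomial.eval_X,
        Polynomial.eval_C, Polynomial.eval_zero]
    simp only [q]
    rw [Polynomial.eval_sub, eval_univ, eval_univ, h1, h1]
  have h2 : Polynomial.X * q = 0 := by
    apply Polynomial.funext
    intro c
    rw [Polynomial.eval_mul, Polynomial.eval_X, Polynomial.eval_zero, hq]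
    by_cases hc : c = 0
    · rw [hc, zero_mul]
    · rw [even_of_ne m c b hc f hf, sub_self, mul_zero]
  have h3 : q = 0 := (mul_eq_zero.1 h2).resolve_left Polynomial.X_ne_zero
  have h4 := hq a
  rw [h3, Polynomial.eval_zero] at h4
  exact sub_eq_zero.1 h4.symm

end

/-- For every infinite field `K` of characteristic not two and every `n = m + 3 ≥ 3` there is an
endomorphism of `K[x_1, …, x_n]` whose stable image is not a retract. -/
theorem result (K : Type*) [Field K] [Infinite K] (h2 : (2 : K) ≠ 0) (m : ℕ) :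
    ∃ φ : MvPolynomial (Fin (m + 3)) K →ₐ[K] MvPolynomial (Fin (m + 3)) K,
      ¬ IsRetract (stableImage φ) := by
  refine ⟨phi K m, ?_⟩
  rintro ⟨π, hπ, hr⟩
  have h0 : π (X 0) = X 0 := hr _ (mem_stable_of_fixed K m _ (phi_zero K m))
  have hw := hr _ (mem_stable_of_fixed K m _ (phi_w K m))
  rw [map_add, map_mul, map_pow, h0] at hw
  have hY : π (X 1) ∈ stableImage (phi K m) := by
    rw [← hπ]
    exact ⟨X 1, rfl⟩
  let q : Polynomial K := aeval (vals m 0 Polynomial.X 0) (π (X 1))
  have hq : ∀ c : K, q.eval c = eval (vals m 0 c 0) (π (X 1)) := by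
    intro c
    simp only [q]
    rw [eval_univ]
    congr 2
    funext i
    rw [map_vals m (Polynomial.eval c) Polynomial.eval_zero, Polynomial.eval_X,
      Polynomial.eval_zero]
  have h3 : q ^ 2 = Polynomial.X ^ 2 := by
    apply Polynomial.funext
    intro c
    rw [Polynomial.eval_pow, Polynomial.eval_pow, Polynomial.eval_X, hq]
    have h4 := congrArg (eval (vals m 0 c 0)) hw
    simp only [map_add, map_mul, map_pow, eval_X, vals_zero, vals_one, zero_mul, add_zero] at h4
    exact h4
  have h5 : q.eval 1 = q.eval (-1) := by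
    rw [hq, hq]
    exact even m 0 1 _ hY
  rcases sq_eq_sq_iff_eq_or_eq_neg.1 h3 with h | h
  · rw [h, Polynomial.eval_X, Polynomial.eval_X] at h5
    apply h2
    linear_combination h5
  · rw [h, Polynomial.eval_neg, Polynomial.eval_neg, Polynomial.eval_X, Polynomial.eval_X] at h5
    apply h2
    linear_combination -h5

end Pool.Agent.Results.MP_0f9f23_al.NotRetract
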